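import Pool.Agent.W353.AT.Defs

/-!
# The tensor powers of the cohomology on the whole edge line: definitions

`X` is a smooth projective variety over a number field `K`, of dimension `d`, `N` its `i`-th Betti number
and `χ` an Artin representation of `K`.  The tensor power `H^i(X)^{⊗ r}` is a part of `H^{ri}(X^r)`.
-/

set_option autoImplicit false

namespace Pool.Agent.H2N.TL

open NumberField IsDedekindDomain Filter Topology Polynomial
open Pool.Agent.W353.EF (IsFrobenius LFun)
open Pool.Agent.W353.EH (edgePoint size)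
open Pool.Agent.W353.AT (IsFrobeniusElement)

/-- The polynomials `B v` are the Euler factors of `L(H^i(X)^{⊗ r} ⊗ χ, s)`: for almost all primes `v`,
`B_v(z) = ∏ det(1 - α_{f(1)} ⋯ α_{f(r)} z χ(σ⁻¹))` for the eigenvalues `α_1, …, α_N` of the geometric
Frobenius `σ⁻¹` on `H^i(X)`, the product over all `f : {1, …, r} → {1, …, N}`; at the other primes `B v`
is an arbitrary polynomial, and no factor `1 / B_v(q_v^{-s})` has a pole at the point
`s = r i / 2 + 1 + i τ` of the edge line. -/
def IsPowerAt {K : Type} [Field K] [NumberField K] {l : ℕ}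
    (X : Set (MvPolynomial (Fin l) (𝓞 K))) (d i N r : ℕ) {n : ℕ}
    (χ : Representation ℂ Gal(AlgebraicClosure K/K) (Fin n → ℂ)) (τ : ℝ)
    (B : HeightOneSpectrum (𝓞 K) → ℂ[X]) : Prop :=
  (∀ᶠ v in cofinite, ∃ α : Fin N → ℂ, IsFrobenius X d i v α ∧
    ∀ σ, IsFrobeniusElement v σ → ∀ z : ℂ, (B v).eval z =
      ∏ f : Fin r → Fin N, LinearMap.det (1 - ((∏ j, α (f j)) * z) • χ σ⁻¹)) ∧
  ∀ v, (B v).eval ((Ideal.absNorm v.asIdeal : ℂ) ^ (-edgePoint (r * i) τ)) ≠ 0

end Pool.Agent.H2N.TL
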