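import Pool.Agent.V1213.TP.Core
import Pool.Agent.Y139.SM.Bessel
import Pool.Agent.W353.L1.Final
import Pool.Agent.H2N.TL.Defs

/-!
Tensor powers of the cohomology on the whole edge line: the sizes, mean values of the characters with
heights, and inequalities for irreducible twists which do not depend on the dimension of the twist.
-/

set_option autoImplicit false

namespace Pool.Agent.H2N.TL

open Complex Filter Topology ComplexConjugate NumberField IsDedekindDomain Asymptotics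
  Pool.Agent.W401.Cheb Pool.Agent.W540.BE Pool.Agent.W353.L1 Polynomial
open Pool.Agent.H341R2 (lam lam_tendsto)
open Pool.Agent.W353.PV (tF Eig alp pick pick_spec)
open Pool.Agent.W353.EF (LFun)
open Pool.Agent.W353.EH (edgePoint size HasOrder)
open Pool.Agent.W353.AT (IsArtin exists_common)
open Pool.Agent.Y139.SM (prods prods_sum prods_prod EP_cofinite chebC chebC_sum chebC_one chebC_even bessel_two)

section
variable {K : Type} [Field K] [NumberField K] {l : ℕ} {X : Set (MvPolynomial (Fin l) (𝓞 K))}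
  {d i N : ℕ}

theorem edge_gen (r : ℕ) (τ : ℝ) : ((((r : ℝ) * ((i : ℝ) / 2) : ℝ)) : ℂ) + 1 + (τ : ℂ) * I =
    edgePoint (r * i) τ := by
  unfold edgePoint
  push_cast
  ring

/-- **The sizes of the tensor powers of the cohomology.** -/
theorem power_size (hi : i ≤ 2 * d) {σ : HeightOneSpectrum (𝓞 K) → GK K}
    (hσ : ∀ v, IsFrob v (σ v))
    (r : ℕ) {n : ℕ} (χ : Representation ℂ (GK K) (Fin n → ℂ)) (hχ : IsArtin χ) (τ : ℝ)
    (B : HeightOneSpectrum (𝓞 K) → ℂ[X]) (hB : IsPowerAt X d i N r χ τ B) :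
    (∀ᶠ ε : ℝ in 𝓝[>] 0, LFun B (edgePoint (r * i) τ + ε) ≠ 0) ∧
    Tendsto (fun ε : ℝ => (EP (nm K) ε fun v => (tF X d i N K v) ^ r * RR χ τ σ v) / lam ε -
      size (r * i) τ B ε) (𝓝[>] 0) (𝓝 0) := by
  classical
  obtain ⟨U, hUn, hU, hx1⟩ := exists_common (κ := Unit) (n := fun _ => n)
    (fun _ => χ) fun _ => hχ
  have hx1 : ∀ u ∈ U, χ u = 1 := hx1 ()
  have hfin : Finite (GK K ⧸ U) := Subgroup.quotient_finite_of_isOpen U hU
  set β : HeightOneSpectrum (𝓞 K) → Fin N → ℂ := fun v =>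
    pick fun α => Eig X d i v α ∧ ∀ σ, IsFrob v σ → ∀ z : ℂ, (B v).eval z =
      ∏ f : Fin r → Fin N, LinearMap.det (1 - ((∏ j, α (f j)) * z) • χ σ⁻¹) with hβ
  have hb : ∀ᶠ v in cofinite, Eig X d i v (β v) ∧
      ∀ σ, IsFrob v σ → ∀ z : ℂ, (B v).eval z =
        ∏ f : Fin r → Fin N, LinearMap.det (1 - ((∏ j, β v (f j)) * z) • χ σ⁻¹) :=
    hB.1.mono fun v hv => pick_spec hv
  have hq0 : ∀ v : HeightOneSpectrum (𝓞 K), (0 : ℝ) < (nm K v : ℝ) := fun v => by
    have := Pool.Agent.W353.L1.nm_pos v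
    exact_mod_cast this
  have hnorm0 : ∀ᶠ v in cofinite, ∀ j, ‖β v j‖ = (nm K v : ℝ) ^ ((i : ℝ) / 2) :=
    hb.mono fun v hv j => hv.1.norm j
  have hnorm : ∀ᶠ v in cofinite, ∀ j, ‖prods r (β v) j‖ =
      (nm K v : ℝ) ^ ((r : ℝ) * ((i : ℝ) / 2)) := by
    refine hnorm0.mono fun v hv j => ?_
    unfold prods
    rw [norm_prod, Finset.prod_congr rfl fun i _ => hv _, Finset.prod_const, Finset.card_univ,
      Fintype.card_fin, mul_comm, Real.rpow_mul (hq0 v).le, Real.rpow_natCast]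
  have htF : ∀ᶠ v in cofinite, ((tF X d i N K v : ℝ) : ℂ) =
      (∑ j, β v j) * ((nm K v : ℕ) : ℂ) ^ (-((((i : ℝ) / 2 : ℝ)) : ℂ)) := by
    refine hb.mono fun v hv => ?_
    have h3 : Eig X d i v (alp X d i N K v) := pick_spec ⟨_, hv.1⟩
    have h4 := hv.1.unique' hi h3
    have h5 : ∑ j, alp X d i N K v j = ∑ j, β v j := (congrArg Multiset.sum h4).symm
    have h6 := tr_eq (w := (i : ℝ) / 2) (α := alp X d i N K) (fun j => h3.norm j) (h3.im hi)
    rw [h5] at h6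
    exact h6
  have hsum : ∀ᶠ v in cofinite, ∑ j, prods r (β v) j =
      (((tF X d i N K v) ^ r : ℝ) : ℂ) *
        ((((nm K v : ℝ) ^ ((r : ℝ) * ((i : ℝ) / 2)) : ℝ)) : ℂ) := by
    filter_upwards [htF] with v hv
    have hqC : ((nm K v : ℕ) : ℂ) ≠ 0 := by
      have := (hq0 v).ne'
      exact_mod_cast this
    have h1 : ∑ j, β v j = ((tF X d i N K v : ℝ) : ℂ) *
        ((((nm K v : ℝ) ^ ((i : ℝ) / 2) : ℝ)) : ℂ) := by
      rw [hv, mul_assoc, Complex.ofReal_cpow (hq0 v).le]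
      have e : (((nm K v : ℝ)) : ℂ) = ((nm K v : ℕ) : ℂ) := by push_cast; rfl
      rw [e, ← Complex.cpow_add _ _ hqC, neg_add_cancel, Complex.cpow_zero, mul_one]
    rw [prods_sum, h1, mul_pow, mul_comm (r : ℝ), Real.rpow_mul (hq0 v).le, Real.rpow_natCast]
    push_cast
    rfl
  have hreal : ∀ᶠ v in cofinite, (∑ j, prods r (β v) j).im = 0 := by
    refine hsum.mono fun v hv => ?_
    rw [hv, ← Complex.ofReal_mul, Complex.ofReal_im]
  have hsz := size_corr ((r : ℝ) * ((i : ℝ) / 2)) (fun v => prods r (β v)) hnorm hreal U χ hx1 τ B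
    (hb.mono fun v hv g hg z => by
      rw [hv.2 g hg z]
      exact (prods_prod (β v) (fun y => LinearMap.det (1 - (y * z) • χ g⁻¹))).symm)
    (by
      rw [edge_gen]
      exact hB.2) (LFun B) (fun s _ => rfl) σ hσ
  simp only [edge_gen] at hsz
  refine ⟨hsz.1, ?_⟩
  have htr : ∀ᶠ v in cofinite, tr ((r : ℝ) * ((i : ℝ) / 2)) (fun v => prods r (β v)) v =
      (tF X d i N K v) ^ r := by
    filter_upwards [hnorm, hreal, hsum] with v h1 h2 h3
    have h5 := tr_eq (w := (r : ℝ) * ((i : ℝ) / 2)) (α := fun v => prods r (β v)) (v := v) h1 h2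
    rw [h3] at h5
    have h7 : ((((nm K v : ℝ) ^ ((r : ℝ) * ((i : ℝ) / 2)) : ℝ)) : ℂ) *
        ((nm K v : ℕ) : ℂ) ^ (-((((r : ℝ) * ((i : ℝ) / 2) : ℝ)) : ℂ)) = 1 := by
      have hqC : ((nm K v : ℕ) : ℂ) ≠ 0 := by
        have := (hq0 v).ne'
        exact_mod_cast this
      rw [Complex.ofReal_cpow (hq0 v).le]
      have e : (((nm K v : ℝ)) : ℂ) = ((nm K v : ℕ) : ℂ) := by push_cast; rfl
      rw [e, ← Complex.cpow_add _ _ hqC, add_neg_cancel, Complex.cpow_zero]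
    rw [mul_assoc, h7, mul_one] at h5
    exact_mod_cast h5
  have hcong := EP_cofinite (K := K)
    (φ := fun v => (tF X d i N K v) ^ r * RR χ τ σ v)
    (ψ := fun v => tr ((r : ℝ) * ((i : ℝ) / 2)) (fun v => prods r (β v)) v * RR χ τ σ v)
    (B := (N : ℝ) ^ r * n) (C := ((N ^ r : ℕ) : ℝ) * n)
    (fun v => by
      rw [abs_mul, abs_pow]
      exact mul_le_mul (pow_le_pow_left₀ (abs_nonneg _) (abs_tr_le _ _ _) r)
        (abs_RR_le U χ hx1 _ _ _) (abs_nonneg _) (by positivity))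
    (fun v => by
      rw [abs_mul]
      exact mul_le_mul (abs_tr_le _ _ _) (abs_RR_le U χ hx1 _ _ _) (abs_nonneg _) (by positivity))
    (htr.mono fun v hv => by rw [hv])
  have h8 := hcong.add hsz.2
  rw [add_zero] at h8
  refine h8.congr fun ε => ?_
  have e : (fun v => ((tr ((r : ℝ) * ((i : ℝ) / 2)) (fun v => prods r (β v)) v : ℂ) *
      (χ.character (σ v)⁻¹ * zz τ v)).re) =
      fun v => tr ((r : ℝ) * ((i : ℝ) / 2)) (fun v => prods r (β v)) v * RR χ τ σ v := by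
    funext v
    rw [Complex.re_ofReal_mul]
    rfl
  rw [e]
  unfold size
  ring

theorem size_lim {B : HeightOneSpectrum (𝓞 K) → ℂ[X]} {j : ℕ} {τ : ℝ} {k : ℤ}
    (hnz : ∀ᶠ ε : ℝ in 𝓝[>] 0, LFun B (edgePoint j τ + ε) ≠ 0) (h : HasOrder j τ B k) :
    Tendsto (size j τ B) (𝓝[>] 0) (𝓝 (-(k : ℝ))) := by
  obtain ⟨Λ, h1, h2, h3⟩ := h
  exact Pool.Agent.W353.PV.lim_ord hnz h1 (h2.mono fun s hs hs' => hs (by
    rw [Pool.Agent.W353.AT.edge_re] at hs'
    exact hs')) h3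

end

/-- the mean value of the absolute value of the cosine at a height `τ ≠ 0`, and `1` for `τ = 0` -/
noncomputable def heightFactor (τ : ℝ) : ℝ := if τ = 0 then 1 else 2 / Real.pi

theorem hf_pos (τ : ℝ) : 0 < heightFactor τ := by
  have := Real.pi_pos
  unfold heightFactor
  split_ifs <;> positivity

theorem hf_le (τ : ℝ) : heightFactor τ ≤ 1 := by
  unfold heightFactor
  split_ifs
  · exact le_rfl
  · rw [div_le_one Real.pi_pos]
    linarith [Real.pi_gt_three]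

section
variable {K : Type} [Field K] [NumberField K]

/-- the mean value of an irreducible character with a height -/
theorem mean_RR {n : ℕ} (χ : Representation ℂ (GK K) (Fin n → ℂ)) (hχ : IsArtin χ)
    (hirr : χ.IsIrreducible) (σ : HeightOneSpectrum (𝓞 K) → GK K) (hσ : ∀ v, IsFrob v (σ v))
    (τ : ℝ) {η : ℝ} (hη : 0 < η) : ∀ᶠ ε : ℝ in 𝓝[>] 0,
      (EP (nm K) ε fun v => |RR χ τ σ v|) / lam ε ≤ heightFactor τ + η := by
  classical
  obtain ⟨U, hUn, hU, hx1⟩ := exists_common (κ := Unit) (n := fun _ => n)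
    (fun _ => χ) fun _ => hχ
  have hfin : Finite (GK K ⧸ U) := Subgroup.quotient_finite_of_isOpen U hU
  set A := chF U (fun _ : Unit => χ) hx1 () with hA
  have h1 : (avR U fun q => ‖A.f q‖) ≤ 1 := by
    have h2 := avR_sq_le U fun q => ‖A.f q‖
    have h3 : (avR U fun q => ‖A.f q‖ ^ 2) = 1 := sq_one U (fun _ : Unit => χ) hx1 (k := ()) hirr
    rw [h3] at h2
    have h4 := avR_nonneg U (ψ := fun q => ‖A.f q‖) fun q => norm_nonneg _
    nlinarith
  have h0 := avR_nonneg U (ψ := fun q => ‖A.f q‖) fun q => norm_nonneg _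
  by_cases hτ : τ = 0
  · subst hτ
    have h2 := equi_zero U hU A.f A.cls σ hσ
    have h3 : (avR U fun q => |(A.f q).re|) ≤ avR U fun q => ‖A.f q‖ := by
      let _ : Fintype (GK K ⧸ U) := Fintype.ofFinite _
      unfold avR
      rw [finsum_eq_sum_of_fintype, finsum_eq_sum_of_fintype]
      refine mul_le_mul_of_nonneg_left ?_ (by positivity)
      exact Finset.sum_le_sum fun q _ => Complex.abs_re_le_norm _
    have h4 : (avR U fun q => |(A.f q).re|) < heightFactor 0 + η := by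
      unfold heightFactor
      rw [if_pos rfl]
      linarith
    exact (h2.eventually_lt_const h4).mono fun ε hε => hε.le
  · have h2 := equi U hU A.f A.cls A.herm σ hσ hτ
    have h4 : 2 / Real.pi * (avR U fun q => ‖A.f q‖) < heightFactor τ + η := by
      unfold heightFactor
      rw [if_neg hτ]
      have h5 : (0 : ℝ) < 2 / Real.pi := by have := Real.pi_pos; positivity
      nlinarith
    exact (h2.eventually_lt_const h4).mono fun ε hε => hε.le

/-- a bound for a polynomial gives a bound for the sizes -/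
theorem core {T : HeightOneSpectrum (𝓞 K) → ℝ} {s : ℝ} (hs : 0 ≤ s)
    (hT : ∀ v, |T v| ≤ s) (σ : HeightOneSpectrum (𝓞 K) → GK K) (hσ : ∀ v, IsFrob v (σ v)) {n : ℕ}
    (χ : Representation ℂ (GK K) (Fin n → ℂ)) (hχ : IsArtin χ) (hirr : χ.IsIrreducible) (τ : ℝ)
    (S : Finset ℕ) (e : ℕ → ℕ) (c : ℕ → ℝ)
    (x : ℕ → ℝ → ℝ) (hx : ∀ j ∈ S, Tendsto (fun ε : ℝ =>
      (EP (nm K) ε fun v => T v ^ e j * RR χ τ σ v) / lam ε - x j ε) (𝓝[>] 0) (𝓝 0))
    {b : ℝ} (hb0 : 0 ≤ b) (hb : ∀ t : ℝ, |t| ≤ s → |∑ j ∈ S, c j * t ^ e j| ≤ b)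
    {η : ℝ} (hη : 0 < η) :
    ∀ᶠ ε : ℝ in 𝓝[>] 0, |∑ j ∈ S, c j * x j ε| ≤ b * heightFactor τ + η := by
  classical
  obtain ⟨U, hUn, hU, hx1⟩ := exists_common (κ := Unit) (n := fun _ => n)
    (fun _ => χ) fun _ => hχ
  have hx1 : ∀ u ∈ U, χ u = 1 := hx1 ()
  have hfin : Finite (GK K ⧸ U) := Subgroup.quotient_finite_of_isOpen U hU
  have hpt : ∀ v, |∑ j ∈ S, c j * (T v ^ e j * RR χ τ σ v)| ≤ b * |RR χ τ σ v| := by
    intro v
    have h1 : ∑ j ∈ S, c j * (T v ^ e j * RR χ τ σ v) =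
        (∑ j ∈ S, c j * T v ^ e j) * RR χ τ σ v := by
      rw [Finset.sum_mul]
      refine Finset.sum_congr rfl fun r _ => ?_
      ring
    rw [h1, abs_mul]
    exact mul_le_mul_of_nonneg_right (hb (T v) (hT v)) (abs_nonneg _)
  have hbd : ∀ r v, |T v ^ r * RR χ τ σ v| ≤ s ^ r * n := by
    intro r v
    rw [abs_mul, abs_pow]
    exact mul_le_mul (pow_le_pow_left₀ (abs_nonneg _) (hT v) _)
      (abs_RR_le U χ hx1 _ _ _) (abs_nonneg _) (by positivity)
  have h1 : Tendsto (fun ε : ℝ => ∑ j ∈ S, c j * ((EP (nm K) ε fun v =>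
      T v ^ e j * RR χ τ σ v) / lam ε - x j ε)) (𝓝[>] 0) (𝓝 0) := by
    have h2 := tendsto_finsetSum (f := fun j ε => c j * ((EP (nm K) ε fun v =>
      T v ^ e j * RR χ τ σ v) / lam ε - x j ε)) (a := fun j => c j * 0) S
      fun r hr => (hx r hr).const_mul (c r)
    simpa using h2
  filter_upwards [(Metric.tendsto_nhds.1 h1) (η / 2) (by positivity),
    mean_RR χ hχ hirr σ hσ τ (η := η / (2 * (b + 1))) (by positivity),
    lam_tendsto.eventually_gt_atTop 0,
    self_mem_nhdsWithin] with ε h2 hA' h3 h4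
  have hε : (0 : ℝ) < ε := h4
  rw [Real.dist_eq, sub_zero] at h2
  have h5 : |EP (nm K) ε fun v => ∑ j ∈ S, c j * (T v ^ e j * RR χ τ σ v)| ≤
      b * EP (nm K) ε fun v => |RR χ τ σ v| := by
    rw [← EP_const_mul]
    refine EP_abs_le (B := b * n) (fun v => ?_) (fun v => hpt v) hε
    rw [abs_of_nonneg (by positivity)]
    exact mul_le_mul_of_nonneg_left (abs_RR_le U χ hx1 _ _ _) hb0
  have h6 : (EP (nm K) ε fun v => ∑ j ∈ S, c j * (T v ^ e j * RR χ τ σ v)) =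
      ∑ j ∈ S, c j * EP (nm K) ε fun v => T v ^ e j * RR χ τ σ v := by
    rw [EP_sum normSys hε S (fun r v => c r * (T v ^ e r * RR χ τ σ v))
      (fun r => |c r| * (s ^ e r * n)) (by
        intro k _ v
        rw [abs_mul]
        exact mul_le_mul_of_nonneg_left (hbd _ v) (abs_nonneg _))]
    exact Finset.sum_congr rfl fun k _ => EP_const_mul _ _
  have h7 : ∑ j ∈ S, c j * ((EP (nm K) ε fun v => T v ^ e j * RR χ τ σ v) / lam ε -
      x j ε) = (∑ j ∈ S, c j * EP (nm K) ε fun v => T v ^ e j * RR χ τ σ v) / lam ε -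
        ∑ j ∈ S, c j * x j ε := by
    rw [Finset.sum_div, ← Finset.sum_sub_distrib]
    refine Finset.sum_congr rfl fun k _ => ?_
    ring
  rw [h7, ← h6] at h2
  have h8 : |(EP (nm K) ε fun v => ∑ j ∈ S, c j * (T v ^ e j * RR χ τ σ v)) / lam ε| ≤
      b * ((EP (nm K) ε fun v => |RR χ τ σ v|) / lam ε) := by
    rw [abs_div, abs_of_pos h3, ← mul_div_assoc]
    exact div_le_div_of_nonneg_right h5 h3.le
  have h9 : b * ((EP (nm K) ε fun v => |RR χ τ σ v|) / lam ε) ≤ b * heightFactor τ + η / 2 := by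
    have h10 := mul_le_mul_of_nonneg_left hA' hb0
    have h11 : b * (η / (2 * (b + 1))) ≤ η / 2 := by
      rw [mul_div_assoc', div_le_div_iff₀ (by positivity) (by positivity)]
      nlinarith
    linarith
  set P := (EP (nm K) ε fun v => ∑ j ∈ S, c j * (T v ^ e j * RR χ τ σ v)) / lam ε
  have h11 := abs_sub_abs_le_abs_sub (∑ j ∈ S, c j * x j ε) P
  rw [abs_sub_comm] at h11
  linarith

end

section
variable {K : Type} [Field K] [NumberField K] {l : ℕ} {X : Set (MvPolynomial (Fin l) (𝓞 K))}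
  {d i N : ℕ}

/-- the inequality for the orders, from the inequality for the sizes -/
theorem order_le {κ : Type*} {S : Finset κ} {c : κ → ℝ} {x : κ → ℝ → ℝ} {k : κ → ℤ} {a : ℝ}
    (hx : ∀ r ∈ S, Tendsto (x r) (𝓝[>] 0) (𝓝 (-(k r : ℝ))))
    (h : ∀ η : ℝ, 0 < η → ∀ᶠ ε : ℝ in 𝓝[>] 0, |∑ r ∈ S, c r * x r ε| ≤ a + η) :
    |∑ r ∈ S, c r * k r| ≤ a := by
  have h1 : Tendsto (fun ε : ℝ => |∑ r ∈ S, c r * x r ε|) (𝓝[>] 0)
      (𝓝 |∑ r ∈ S, c r * (-(k r : ℝ))|) :=
    (tendsto_finsetSum _ fun r hr => (hx r hr).const_mul _).abs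
  have h2 : ∑ r ∈ S, c r * (-(k r : ℝ)) = -∑ r ∈ S, c r * k r := by
    rw [← Finset.sum_neg_distrib]
    exact Finset.sum_congr rfl fun j _ => by ring
  rw [h2, abs_neg] at h1
  exact le_of_forall_pos_le_add fun η hη => le_of_tendsto h1 (h η hη)

/-- **All polynomial inequalities.** -/
theorem poly_size (hi : i ≤ 2 * d) {n : ℕ} (χ : Representation ℂ (GK K) (Fin n → ℂ))
    (hχ : IsArtin χ) (hirr : χ.IsIrreducible) (τ : ℝ) (S : Finset ℕ) (e : ℕ → ℕ) (c : ℕ → ℝ) {b : ℝ}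
    (hb : ∀ t : ℝ, |t| ≤ N → |∑ r ∈ S, c r * t ^ e r| ≤ b)
    (B : ℕ → HeightOneSpectrum (𝓞 K) → ℂ[X]) (hB : ∀ r ∈ S, IsPowerAt X d i N (e r) χ τ (B r))
    {η : ℝ} (hη : 0 < η) : ∀ᶠ ε : ℝ in 𝓝[>] 0,
      |∑ r ∈ S, c r * size (e r * i) τ (B r) ε| ≤ b * heightFactor τ + η := by
  choose σ hσ using exists_isFrob (F := K)
  exact core (T := tF X d i N K) (Nat.cast_nonneg N) (fun v => abs_tr_le _ _ _) σ hσ χ hχ hirr τ
    S e c (fun r => size (e r * i) τ (B r))
    (fun r hr => (power_size hi hσ (e r) χ hχ τ (B r) (hB r hr)).2)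
    ((abs_nonneg _).trans (hb 0 (by simp))) hb hη

theorem nonvanish (hi : i ≤ 2 * d) {n : ℕ} (χ : Representation ℂ (GK K) (Fin n → ℂ))
    (hχ : IsArtin χ) (τ : ℝ) {r : ℕ} {B : HeightOneSpectrum (𝓞 K) → ℂ[X]}
    (hB : IsPowerAt X d i N r χ τ B) : ∀ᶠ ε : ℝ in 𝓝[>] 0, LFun B (edgePoint (r * i) τ + ε) ≠ 0 := by
  choose σ hσ using exists_isFrob (F := K)
  exact (power_size hi hσ r χ hχ τ B hB).1

theorem poly_order (hi : i ≤ 2 * d) {n : ℕ} (χ : Representation ℂ (GK K) (Fin n → ℂ))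
    (hχ : IsArtin χ) (hirr : χ.IsIrreducible) (τ : ℝ) (S : Finset ℕ) (e : ℕ → ℕ) (c : ℕ → ℝ) {b : ℝ}
    (hb : ∀ t : ℝ, |t| ≤ N → |∑ r ∈ S, c r * t ^ e r| ≤ b)
    (B : ℕ → HeightOneSpectrum (𝓞 K) → ℂ[X]) (hB : ∀ r ∈ S, IsPowerAt X d i N (e r) χ τ (B r))
    (k : ℕ → ℤ) (hk : ∀ r ∈ S, HasOrder (e r * i) τ (B r) (k r)) :
    |∑ r ∈ S, c r * k r| ≤ b * heightFactor τ :=
  order_le (x := fun r => size (e r * i) τ (B r))
    (fun r hr => size_lim (nonvanish hi χ hχ τ (hB r hr)) (hk r hr))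
    fun η hη => poly_size hi χ hχ hirr τ S e c hb B hB hη

/-- if the orders vanish along a progression, the order at its start vanishes -/
theorem prog_zero (hi : i ≤ 2 * d) {n : ℕ} (χ : Representation ℂ (GK K) (Fin n → ℂ))
    (hχ : IsArtin χ) (hirr : χ.IsIrreducible) (τ : ℝ) {r q : ℕ} (hr : 1 ≤ r) (hq : Even q)
    (hq1 : 1 ≤ q) (B : ℕ → HeightOneSpectrum (𝓞 K) → ℂ[X]) (m : ℕ)
    (hm : (heightFactor τ * (N : ℝ) ^ r) ^ q < ((q * m / r : ℕ) + 1 : ℝ) ^ r)
    (hB : ∀ j ≤ m, IsPowerAt X d i N (r + q * j) χ τ (B j))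
    (h0 : ∀ j, 1 ≤ j → j ≤ m → HasOrder ((r + q * j) * i) τ (B j) 0) (k : ℤ)
    (hk : HasOrder (r * i) τ (B 0) k) : k = 0 := by
  classical
  have hhf := hf_pos τ
  rcases Nat.eq_zero_or_pos N with hN | hN
  · have hN0 : (N : ℝ) = 0 := by rw [hN, Nat.cast_zero]
    have h1 := poly_order (X := X) (N := N) hi χ hχ hirr τ {0} (fun j => r + q * j)
      (fun _ => 1) (b := 0) (by
      intro t ht
      rw [hN0] at ht
      have : t = 0 := abs_eq_zero.1 (le_antisymm ht (abs_nonneg _))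
      rw [this, Finset.sum_singleton, mul_zero, add_zero, zero_pow (by omega), mul_zero, abs_zero])
      B (fun j hj => by
        rw [Finset.mem_singleton] at hj
        subst hj
        exact hB 0 (Nat.zero_le _)) (fun _ => k) (fun j hj => by
        rw [Finset.mem_singleton] at hj
        subst hj
        simpa using hk)
    rw [Finset.sum_singleton, one_mul, zero_mul] at h1
    have h2 : (k : ℝ) = 0 := abs_eq_zero.1 (le_antisymm h1 (abs_nonneg _))
    exact_mod_cast h2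
  · have hN0 : (0 : ℝ) < N := by exact_mod_cast hN
    have hq0 : q ≠ 0 := by omega
    set A : ℝ := ((N : ℝ) ^ r) ^ q / ((q * m / r : ℕ) + 1 : ℝ) ^ r with hA
    have hA0 : 0 ≤ A := by positivity
    set b : ℝ := A ^ ((q : ℝ)⁻¹) with hb
    have hb0 : 0 ≤ b := Real.rpow_nonneg hA0 _
    have hbq : b ^ q = A := Real.rpow_inv_natCast_pow hA0 hq0
    have hbt : ∀ t : ℝ, |t| ≤ N → |∑ j ∈ Finset.range (m + 1),
        ((-1) ^ j * (m.choose j : ℝ) / (N : ℝ) ^ (q * j)) * t ^ (r + q * j)| ≤ b := by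
      intro t ht
      rw [Pool.Agent.V1213.TP.expand]
      refine le_of_pow_le_pow_left₀ hq0 hb0 ?_
      rw [hbq]
      exact Pool.Agent.V1213.TP.pw (r := r) (m := m) hq hN0 ht
    set kk : ℕ → ℤ := fun j => if j = 0 then k else 0 with hkk
    have h1 := poly_order (X := X) (N := N) hi χ hχ hirr τ (Finset.range (m + 1))
      (fun j => r + q * j) (fun j => (-1) ^ j * (m.choose j : ℝ) / (N : ℝ) ^ (q * j)) hbt B
      (fun j hj => hB j (by rw [Finset.mem_range] at hj; omega)) kk (by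
      intro j hj
      rcases Nat.eq_zero_or_pos j with h | h
      · subst h
        simpa [hkk] using hk
      · have : kk j = 0 := by rw [hkk]; simp; omega
        rw [this]
        exact h0 j h (by rw [Finset.mem_range] at hj; omega))
    have h2 : ∑ j ∈ Finset.range (m + 1), ((-1) ^ j * (m.choose j : ℝ) / (N : ℝ) ^ (q * j)) * kk j =
        (k : ℝ) := by
      rw [Finset.sum_eq_single 0]
      · simp [hkk]
      · intro j _ hj
        have : kk j = 0 := by rw [hkk]; simp [hj]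
        rw [this]
        simp
      · intro h
        exact absurd (Finset.mem_range.2 (Nat.succ_pos m)) h
    rw [h2] at h1
    have hM : (0 : ℝ) < ((q * m / r : ℕ) + 1 : ℝ) ^ r := by positivity
    have h4 : |(k : ℝ)| ^ q < 1 := by
      refine (pow_le_pow_left₀ (abs_nonneg _) h1 q).trans_lt ?_
      rw [mul_pow, hbq, hA, div_mul_eq_mul_div, div_lt_one hM, mul_comm, ← mul_pow]
      exact hm
    have h5 : |(k : ℝ)| < 1 := by
      by_contra hcon
      exact absurd h4 (not_lt.2 (one_le_pow₀ (not_lt.1 hcon)))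
    rw [← Int.cast_abs] at h5
    exact Int.abs_lt_one_iff.1 (by exact_mod_cast h5)

/-- a zero or pole on the edge line propagates along all progressions with even difference -/
theorem prog_infinite (hi : i ≤ 2 * d) {n : ℕ} (χ : Representation ℂ (GK K) (Fin n → ℂ))
    (hχ : IsArtin χ) (hirr : χ.IsIrreducible) (τ : ℝ) {r q : ℕ} (hr : 1 ≤ r) (hq : Even q)
    (hq1 : 1 ≤ q) (B : ℕ → HeightOneSpectrum (𝓞 K) → ℂ[X])
    (hB : ∀ j, IsPowerAt X d i N (r + q * j) χ τ (B j)) (k : ℤ) (hk0 : k ≠ 0)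
    (hk : HasOrder (r * i) τ (B 0) k) :
    {j : ℕ | 1 ≤ j ∧ ¬ HasOrder ((r + q * j) * i) τ (B j) 0}.Infinite := by
  classical
  intro hfin
  apply hk0
  obtain ⟨J, hJ⟩ : ∃ J : ℕ, ∀ j : ℕ, J ≤ j → 1 ≤ j → HasOrder ((r + q * j) * i) τ (B j) 0 := by
    obtain ⟨b, hb⟩ := hfin.bddAbove
    refine ⟨b + 1, fun j hj hj1 => ?_⟩
    by_contra hcon
    have := hb ⟨hj1, hcon⟩
    omega
  -- the progression with difference `q (J + 1)`
  set Q : ℕ := q * (J + 1) with hQ
  have hQe : Even Q := hq.mul_right _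
  have hQ1 : 1 ≤ Q := Nat.mul_pos hq1 (Nat.succ_pos J)
  set m : ℕ := r * (N ^ r) ^ Q with hm
  refine prog_zero (X := X) (N := N) hi χ hχ hirr τ hr hQe hQ1 (fun j => B ((J + 1) * j)) m ?_ ?_ ?_
    k (by simpa using hk)
  · have h1 : Q * m / r = Q * (N ^ r) ^ Q := by
      rw [hm]
      rw [show Q * (r * (N ^ r) ^ Q) = r * (Q * (N ^ r) ^ Q) by ring]
      exact Nat.mul_div_cancel_left _ (by omega)
    rw [h1]
    have h2 : (N ^ r) ^ Q < (Q * (N ^ r) ^ Q + 1) ^ r :=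
      calc (N ^ r) ^ Q < Q * (N ^ r) ^ Q + 1 := by nlinarith [Nat.zero_le ((N ^ r) ^ Q)]
        _ = (Q * (N ^ r) ^ Q + 1) ^ 1 := (pow_one _).symm
        _ ≤ (Q * (N ^ r) ^ Q + 1) ^ r := Nat.pow_le_pow_right (by omega) hr
    have h3 : (((N : ℝ) ^ r) ^ Q) < ((Q * (N ^ r) ^ Q : ℕ) + 1 : ℝ) ^ r := by exact_mod_cast h2
    refine lt_of_le_of_lt ?_ h3
    have h4 : heightFactor τ * (N : ℝ) ^ r ≤ (N : ℝ) ^ r :=
      mul_le_of_le_one_left (by positivity) (hf_le τ)
    exact pow_le_pow_left₀ (mul_nonneg (hf_pos τ).le (by positivity)) h4 Q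
  · intro j _
    have := hB ((J + 1) * j)
    rw [show r + q * ((J + 1) * j) = r + Q * j by rw [hQ]; ring] at this
    exact this
  · intro j hj _
    have h1 : J + 1 ≤ (J + 1) * j := by nlinarith
    have := hJ ((J + 1) * j) (by omega) (by omega)
    rw [show r + q * ((J + 1) * j) = r + Q * j by rw [hQ]; ring] at this
    exact this

/-- odd powers -/
theorem odd_zero (hi : i ≤ 2 * d) {n : ℕ} (χ : Representation ℂ (GK K) (Fin n → ℂ))
    (hχ : IsArtin χ) (hirr : χ.IsIrreducible) (τ : ℝ) {R : ℕ} (hR : Odd R)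
    (hlt : heightFactor τ * N < R) (B : ℕ → HeightOneSpectrum (𝓞 K) → ℂ[X])
    (hB : ∀ r, Odd r → r ≤ R → IsPowerAt X d i N r χ τ (B r))
    (h0 : ∀ r, Odd r → 3 ≤ r → r ≤ R → HasOrder (r * i) τ (B r) 0) (k : ℤ)
    (hk : HasOrder (1 * i) τ (B 1) k) : k = 0 := by
  classical
  have hR0 : (0 : ℝ) < R := by exact_mod_cast hR.pos
  set S : Finset ℕ := (Finset.range (R + 1)).filter fun r => Odd r with hS
  have hmem : ∀ r ∈ S, Odd r ∧ r ≤ R := by
    intro r hr
    rw [hS, Finset.mem_filter, Finset.mem_range] at hr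
    exact ⟨hr.2, by omega⟩
  have h1S : 1 ∈ S := by
    rw [hS, Finset.mem_filter, Finset.mem_range]
    exact ⟨by have := hR.pos; omega, odd_one⟩
  set kk : ℕ → ℤ := fun r => if r = 1 then k else 0 with hkk
  have hkk' : ∀ r ∈ S, HasOrder (r * i) τ (B r) (kk r) := by
    intro r hr
    obtain ⟨h1, h2⟩ := hmem r hr
    by_cases h3 : r = 1
    · subst h3
      simpa [hkk] using hk
    · have : kk r = 0 := by rw [hkk]; simp [h3]
      rw [this]
      obtain ⟨a, ha⟩ := h1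
      exact h0 r ⟨a, ha⟩ (by omega) h2
  rcases Nat.eq_zero_or_pos N with hN | hN
  · have hN0 : (N : ℝ) = 0 := by rw [hN, Nat.cast_zero]
    have h1 := poly_order (X := X) (N := N) hi χ hχ hirr τ {1} (fun j => j)
      (fun _ => 1) (b := 0) (by
      intro t ht
      rw [hN0] at ht
      have : t = 0 := abs_eq_zero.1 (le_antisymm ht (abs_nonneg _))
      rw [this, Finset.sum_singleton, pow_one, mul_zero, abs_zero])
      B (fun j hj => by
        rw [Finset.mem_singleton] at hj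
        subst hj
        exact hB 1 odd_one hR.pos) (fun _ => k) (fun j hj => by
        rw [Finset.mem_singleton] at hj
        subst hj
        exact hk)
    rw [Finset.sum_singleton, one_mul, zero_mul] at h1
    have h2 : (k : ℝ) = 0 := abs_eq_zero.1 (le_antisymm h1 (abs_nonneg _))
    exact_mod_cast h2
  · have hN0 : (0 : ℝ) < N := by exact_mod_cast hN
    have hbt : ∀ t : ℝ, |t| ≤ N → |∑ r ∈ S, chebC N R r * t ^ r| ≤ N / R := by
      intro t ht
      have h1 : ∑ r ∈ S, chebC N R r * t ^ r =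
          ∑ r ∈ Finset.range (R + 1), chebC N R r * t ^ r := by
        rw [hS, Finset.sum_filter]
        refine Finset.sum_congr rfl fun r _ => ?_
        split_ifs with h
        · rfl
        · rw [chebC_even hR (Nat.not_odd_iff_even.1 h), zero_mul]
      rw [h1]
      exact chebC_sum hN0 hR ht
    have h1 := poly_order (X := X) (N := N) hi χ hχ hirr τ S (fun r => r) (fun r => chebC N R r)
      hbt B (fun r hr => hB r (hmem r hr).1 (hmem r hr).2) kk hkk'
    have h2 : ∑ r ∈ S, chebC N R r * (kk r : ℝ) = (k : ℝ) := by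
      rw [Finset.sum_eq_single 1]
      · simp [hkk, chebC_one hN0 hR]
      · intro j _ hj
        have : kk j = 0 := by rw [hkk]; simp [hj]
        rw [this]
        simp
      · intro h
        exact absurd h1S h
    rw [h2] at h1
    have h3 : (N : ℝ) / R * heightFactor τ < 1 := by
      rw [div_mul_eq_mul_div, div_lt_one hR0, mul_comm]
      exact hlt
    have h5 : |(k : ℝ)| < 1 := h1.trans_lt h3
    rw [← Int.cast_abs] at h5
    exact Int.abs_lt_one_iff.1 (by exact_mod_cast h5)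

/-! ### Bessel's inequality for the tensor powers -/

theorem artin_one : IsArtin (1 : Representation ℂ (GK K) (Fin 1 → ℂ)) :=
  Pool.Agent.Y139.SM.one_artin

/-- **Bessel's inequality for the tensor powers**: the sizes -/
theorem bessel_power (hi : i ≤ 2 * d) (r : ℕ) {B₂ : HeightOneSpectrum (𝓞 K) → ℂ[X]}
    (hB₂ : IsPowerAt X d i N (2 * r) (1 : Representation ℂ (GK K) (Fin 1 → ℂ)) 0 B₂)
    {κ : Type} [Fintype κ] {n : κ → ℕ} (χ : ∀ k, Representation ℂ (GK K) (Fin (n k) → ℂ))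
    (hχ : ∀ k, IsArtin (χ k)) (hirr : ∀ k, (χ k).IsIrreducible) (τ : κ → ℝ)
    (x : κ → ℝ → ℝ) (σ : HeightOneSpectrum (𝓞 K) → GK K) (hσ : ∀ v, IsFrob v (σ v))
    (hx : ∀ k, Tendsto (fun ε : ℝ =>
      (EP (nm K) ε fun v => (tF X d i N K v) ^ r * RR (χ k) (τ k) σ v) / lam ε - x k ε)
      (𝓝[>] 0) (𝓝 0))
    (hne : ∀ k l, k ≠ l → τ k = τ l → IsEmpty ((χ k).Equiv (χ l))) {η : ℝ} (hη : 0 < η) :
    ∀ᶠ ε : ℝ in 𝓝[>] 0, ∑ k, (x k ε) ^ 2 ≤ size (2 * r * i) 0 B₂ ε + η := by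
  classical
  obtain ⟨U, hUn, hU, hx1⟩ := exists_common χ hχ
  have hfin : Finite (GK K ⧸ U) := Subgroup.quotient_finite_of_isOpen U hU
  have h2 := (power_size hi hσ (2 * r) _ artin_one 0 B₂ hB₂).2
  have hRR : ∀ v, RR (1 : Representation ℂ (GK K) (Fin 1 → ℂ)) 0 σ v = 1 :=
    Pool.Agent.Y139.SM.RR_one σ
  refine bessel_two U hU Finset.univ χ hx1 τ σ hσ (T := fun v => (tF X d i N K v) ^ r)
    (s := (N : ℝ) ^ r) (by positivity) (fun v => by
      rw [abs_pow]
      exact pow_le_pow_left₀ (abs_nonneg _) (abs_tr_le _ _ _) r) (x := x)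
    (fun k _ => hx k) (S := fun ε => size (2 * r * i) 0 B₂ ε) ?_ (fun k _ => hirr k)
    (fun k _ l _ => hne k l) hη
  refine h2.congr fun ε => ?_
  congr 3
  funext v
  rw [hRR, mul_one]
  ring

/-- **Bessel's inequality for the tensor powers** -/
theorem bessel_sizes (hi : i ≤ 2 * d) (r : ℕ) {B₂ : HeightOneSpectrum (𝓞 K) → ℂ[X]}
    (hB₂ : IsPowerAt X d i N (2 * r) (1 : Representation ℂ (GK K) (Fin 1 → ℂ)) 0 B₂)
    {κ : Type} [Fintype κ] {n : κ → ℕ} (χ : ∀ k, Representation ℂ (GK K) (Fin (n k) → ℂ))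
    (hχ : ∀ k, IsArtin (χ k)) (hirr : ∀ k, (χ k).IsIrreducible) (τ : κ → ℝ)
    (hne : ∀ k l, k ≠ l → τ k = τ l → IsEmpty ((χ k).Equiv (χ l)))
    (B : κ → HeightOneSpectrum (𝓞 K) → ℂ[X])
    (hB : ∀ k, IsPowerAt X d i N r (χ k) (τ k) (B k)) :
    (∀ η : ℝ, 0 < η → ∀ᶠ ε : ℝ in 𝓝[>] 0,
      ∑ k, (size (r * i) (τ k) (B k) ε) ^ 2 ≤ size (2 * r * i) 0 B₂ ε + η) ∧
    ∀ (p : ℤ) (m : κ → ℤ), HasOrder (2 * r * i) 0 B₂ (-p) →
      (∀ k, HasOrder (r * i) (τ k) (B k) (m k)) → ∑ k, m k ^ 2 ≤ p := by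
  classical
  choose σ hσ using exists_isFrob (F := K)
  have h1 : ∀ η : ℝ, 0 < η → ∀ᶠ ε : ℝ in 𝓝[>] 0,
      ∑ k, (size (r * i) (τ k) (B k) ε) ^ 2 ≤ size (2 * r * i) 0 B₂ ε + η := fun η hη =>
    bessel_power hi r hB₂ χ hχ hirr τ (fun k => size (r * i) (τ k) (B k)) σ hσ
      (fun k => (power_size hi hσ r (χ k) (hχ k) (τ k) (B k) (hB k)).2) hne hη
  refine ⟨h1, fun p m hp hm => ?_⟩
  have h2 : Tendsto (fun ε : ℝ => ∑ k, (size (r * i) (τ k) (B k) ε) ^ 2) (𝓝[>] 0)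
      (𝓝 (∑ k, (-(m k : ℝ)) ^ 2)) :=
    tendsto_finsetSum _ fun k _ =>
      (size_lim (nonvanish hi (χ k) (hχ k) (τ k) (hB k)) (hm k)).pow 2
  have h3 := size_lim (nonvanish hi _ artin_one 0 hB₂) hp
  have h4 : ∑ k, (-(m k : ℝ)) ^ 2 ≤ -((-p : ℤ) : ℝ) := by
    refine le_of_forall_pos_le_add fun η hη => ?_
    exact le_of_tendsto_of_tendsto h2 (h3.add_const η) (h1 η hη)
  have h5 : ∑ k, (-(m k : ℝ)) ^ 2 = ((∑ k, m k ^ 2 : ℤ) : ℝ) := by
    push_cast
    exact Finset.sum_congr rfl fun k _ => by ring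
  rw [h5] at h4
  push_cast at h4
  rw [neg_neg] at h4
  exact_mod_cast h4

theorem RR_neg {n : ℕ} (χ : Representation ℂ (GK K) (Fin n → ℂ))
    (hr : ∀ g, (χ.character g).im = 0) (σ : HeightOneSpectrum (𝓞 K) → GK K) (τ : ℝ)
    (v : HeightOneSpectrum (𝓞 K)) : RR χ (-τ) σ v = RR χ τ σ v := by
  unfold RR
  have h1 : conj (χ.character (σ v)⁻¹) = χ.character (σ v)⁻¹ :=
    Complex.conj_eq_iff_im.2 (hr _)
  rw [← conj_zz, ← h1, ← map_mul, h1, Complex.conj_re]

/-- Bessel's inequality for real characters and positive heights -/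
theorem bessel_real (hi : i ≤ 2 * d) (r : ℕ) {B₂ : HeightOneSpectrum (𝓞 K) → ℂ[X]}
    (hB₂ : IsPowerAt X d i N (2 * r) (1 : Representation ℂ (GK K) (Fin 1 → ℂ)) 0 B₂)
    {κ : Type} [Fintype κ] {n : κ → ℕ} (χ : ∀ k, Representation ℂ (GK K) (Fin (n k) → ℂ))
    (hχ : ∀ k, IsArtin (χ k)) (hirr : ∀ k, (χ k).IsIrreducible) (τ : κ → ℝ)
    (hne : ∀ k l, k ≠ l → τ k = τ l → IsEmpty ((χ k).Equiv (χ l)))
    (hτ : ∀ k, 0 < τ k) (hreal : ∀ k g, ((χ k).character g).im = 0)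
    (B : κ → HeightOneSpectrum (𝓞 K) → ℂ[X])
    (hB : ∀ k, IsPowerAt X d i N r (χ k) (τ k) (B k)) :
    (∀ η : ℝ, 0 < η → ∀ᶠ ε : ℝ in 𝓝[>] 0,
      2 * ∑ k, (size (r * i) (τ k) (B k) ε) ^ 2 ≤ size (2 * r * i) 0 B₂ ε + η) ∧
    ∀ (p : ℤ) (m : κ → ℤ), HasOrder (2 * r * i) 0 B₂ (-p) →
      (∀ k, HasOrder (r * i) (τ k) (B k) (m k)) → 2 * ∑ k, m k ^ 2 ≤ p := by
  classical
  choose σ hσ using exists_isFrob (F := K)
  have h1 : ∀ η : ℝ, 0 < η → ∀ᶠ ε : ℝ in 𝓝[>] 0,
      2 * ∑ k, (size (r * i) (τ k) (B k) ε) ^ 2 ≤ size (2 * r * i) 0 B₂ ε + η := by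
    intro η hη
    have h := bessel_power (κ := κ ⊕ κ) hi r hB₂ (n := Sum.elim n n)
      (fun k => match k with
        | Sum.inl k => χ k
        | Sum.inr k => χ k)
      (fun k => match k with
        | Sum.inl k => hχ k
        | Sum.inr k => hχ k)
      (fun k => match k with
        | Sum.inl k => hirr k
        | Sum.inr k => hirr k)
      (Sum.elim τ fun k => -τ k)
      (Sum.elim (fun k => size (r * i) (τ k) (B k)) fun k => size (r * i) (τ k) (B k)) σ hσ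
      (fun k => by
        rcases k with k | k
        · exact (power_size hi hσ r (χ k) (hχ k) (τ k) (B k) (hB k)).2
        · have h2 := (power_size hi hσ r (χ k) (hχ k) (τ k) (B k) (hB k)).2
          refine h2.congr fun ε => ?_
          simp only [Sum.elim_inr]
          congr 3
          funext v
          rw [RR_neg (χ k) (hreal k)])
      (by
        intro k l hkl he
        rcases k with k | k <;> rcases l with l | l <;>
          simp only [Sum.elim_inl, Sum.elim_inr] at he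
        · exact hne k l (fun h => hkl (by rw [h])) he
        · have := hτ k
          have := hτ l
          exfalso
          linarith
        · have := hτ k
          have := hτ l
          exfalso
          linarith
        · exact hne k l (fun h => hkl (by rw [h])) (by linarith)) hη
    refine h.mono fun ε hε => ?_
    rw [Fintype.sum_sum_type] at hε
    simp only [Sum.elim_inl, Sum.elim_inr] at hε
    linarith
  refine ⟨h1, fun p m hp hm => ?_⟩
  have h2 : Tendsto (fun ε : ℝ => 2 * ∑ k, (size (r * i) (τ k) (B k) ε) ^ 2) (𝓝[>] 0)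
      (𝓝 (2 * ∑ k, (-(m k : ℝ)) ^ 2)) :=
    (tendsto_finsetSum _ fun k _ =>
      (size_lim (nonvanish hi (χ k) (hχ k) (τ k) (hB k)) (hm k)).pow 2).const_mul 2
  have h3 := size_lim (nonvanish hi _ artin_one 0 hB₂) hp
  have h4 : 2 * ∑ k, (-(m k : ℝ)) ^ 2 ≤ -((-p : ℤ) : ℝ) := by
    refine le_of_forall_pos_le_add fun η hη => ?_
    exact le_of_tendsto_of_tendsto h2 (h3.add_const η) (h1 η hη)
  have h5 : 2 * ∑ k, (-(m k : ℝ)) ^ 2 = ((2 * ∑ k, m k ^ 2 : ℤ) : ℝ) := by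
    push_cast
    congr 1
    exact Finset.sum_congr rfl fun k _ => by ring
  have h6 : -((-p : ℤ) : ℝ) = (p : ℝ) := by push_cast; ring
  rw [h5, h6] at h4
  exact Int.cast_le.1 h4

end

end Pool.Agent.H2N.TL
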